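import Pool.Agent.Q292.Sh.Rec
import Pool.Agent.Q86.Sh.Law

/-!
# MP_2f8515_co: the minimal length of strong `(2,n)`-shuffles is of order `n log n`

For every `n ≥ 2` strong `(2,n)`-shuffles exist, and their minimal length `U2all n` satisfies
`(1/2) n log₂ n ≤ U2all n ≤ 195 n log₂ n`; so `U2all n = Θ(n log n)`.
-/

set_option autoImplicit false

namespace Pool.Agent.Results.MP_2f8515_co.PairShufflesThetaNLogN

open Finset Asymptotics

/-- The permutation `T_1 T_2 ⋯ T_l` when the coins show `ω`: the `i`-th factor `T_i` is the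
transposition of `a i` and `b i` if `ω i = true`, and the identity otherwise. -/
def outcome {n l : ℕ} (a b : Fin l → Fin n) (ω : Fin l → Bool) : Equiv.Perm (Fin n) :=
  (List.ofFn fun i => if ω i then Equiv.swap (a i) (b i) else 1).prod

open Classical in
/-- The probability that `σ = T_1 T_2 ⋯ T_l` lies in the event `A`, where the lazy transpositions
`T_i` with parameters `(a i, b i, p i)` are independent: the coin vector `ω` has probability
`∏ i, (p i or 1 - p i)`. -/
noncomputable def prob {n l : ℕ} (a b : Fin l → Fin n) (p : Fin l → ℝ)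
    (A : Set (Equiv.Perm (Fin n))) : ℝ :=
  ∑ ω : Fin l → Bool, if outcome a b ω ∈ A then ∏ i, (if ω i then p i else 1 - p i) else 0

/-- The lazy transpositions with parameters `(a i, b i, p i)`, `i = 1, …, l`, form a strong
`(2,n)`-shuffle of length `l`. -/
structure IsStrongTwoShuffle {n l : ℕ} (a b : Fin l → Fin n) (p : Fin l → ℝ) : Prop where
  ne : ∀ i, a i ≠ b i
  nonneg : ∀ i, 0 ≤ p i
  le_one : ∀ i, p i ≤ 1
  uniform : ∀ x₁ x₂ y₁ y₂ : Fin n, x₁ ≠ x₂ → y₁ ≠ y₂ →
    prob a b p {σ | σ x₁ = y₁ ∧ σ x₂ = y₂} = 1 / ((n : ℝ) * ((n : ℝ) - 1))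

/-- the lengths of the strong `(2,n)`-shuffles -/
def lengths (n : ℕ) : Set ℕ :=
  {l | ∃ (a b : Fin l → Fin n) (p : Fin l → ℝ), IsStrongTwoShuffle a b p}

/-- the minimal length of a strong `(2,n)`-shuffle -/
noncomputable def U2all (n : ℕ) : ℕ := sInf (lengths n)

lemma iff_strong {n l : ℕ} (t : Fin l → Q292.Sh.Op (Fin n)) :
    IsStrongTwoShuffle (fun i => (t i).a) (fun i => (t i).b) (fun i => (t i).p)
      ↔ Q292.Sh.StrongShuffle2 t := by
  constructor
  · intro h
    exact ⟨fun i => ⟨h.ne i, h.nonneg i, h.le_one i⟩, h.uniform⟩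
  · intro h
    exact ⟨fun i => (h.1 i).1, fun i => (h.1 i).2.1, fun i => (h.1 i).2.2, h.2⟩

lemma upper (n : ℕ) (hn : 2 ≤ n) : ∃ l ∈ lengths n, l ≤ 195 * n * Nat.log 2 n := by
  obtain ⟨ℓ, hok, hu, hl⟩ := Q292.Sh.has_all n (by omega)
  exact ⟨ℓ.length, ⟨_, _, _, (iff_strong _).2 (Q292.Sh.strong2_of_uni2 hn ℓ hok hu)⟩, hl⟩

lemma lower (n : ℕ) (hn : 2 ≤ n) : ∀ l ∈ lengths n, (n : ℝ) * Real.logb 2 n / 2 ≤ l := by
  rintro l ⟨a, b, p, h⟩
  exact Q292.Sh.lower_bound hn (fun i => ⟨a i, b i, p i⟩) ((iff_strong _).1 h)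

/-- **Full answer (positive).** For every `n ≥ 2` there is a strong `(2,n)`-shuffle, the minimal
length satisfies `(1/2) n log₂ n ≤ U2all n ≤ 195 n log₂ n`, and `U2all n = Θ(n log n)`. -/
theorem result :
    (∀ n : ℕ, 2 ≤ n → (lengths n).Nonempty ∧
      (1 / 2 : ℝ) * (n * Real.logb 2 n) ≤ U2all n ∧
      (U2all n : ℝ) ≤ 195 * (n * Real.logb 2 n)) ∧
    (fun n : ℕ => (U2all n : ℝ)) =Θ[Filter.atTop] (fun n : ℕ => (n : ℝ) * Real.log n) := by
  have h1 : ∀ n : ℕ, 2 ≤ n → (lengths n).Nonempty ∧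
      (1 / 2 : ℝ) * (n * Real.logb 2 n) ≤ U2all n ∧
      (U2all n : ℝ) ≤ 195 * (n * Real.logb 2 n) := by
    intro n hn
    obtain ⟨l, hl, hle⟩ := upper n hn
    have hne : (lengths n).Nonempty := ⟨l, hl⟩
    refine ⟨hne, ?_, ?_⟩
    · have := lower n hn (U2all n) (Nat.sInf_mem hne)
      linarith
    · have h2 : U2all n ≤ 195 * n * Nat.log 2 n := (Nat.sInf_le hl).trans hle
      have h3 : (U2all n : ℝ) ≤ 195 * n * (Nat.log 2 n : ℝ) := by exact_mod_cast h2
      have h4 : (Nat.log 2 n : ℝ) ≤ Real.logb 2 n := by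
        have := Real.natLog_le_logb n 2
        exact_mod_cast this
      have h5 : 195 * (n : ℝ) * (Nat.log 2 n : ℝ) ≤ 195 * (n : ℝ) * Real.logb 2 n :=
        mul_le_mul_of_nonneg_left h4 (by positivity)
      linarith
  refine ⟨h1, ?_⟩
  have hl2 : 0 < Real.log 2 := Real.log_pos (by norm_num)
  constructor
  · refine IsBigO.of_bound (195 / Real.log 2) ?_
    filter_upwards [Filter.eventually_ge_atTop 2] with n hn
    have h := (h1 n hn).2.2
    have hlog : 0 ≤ Real.log n := Real.log_nonneg (by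
      have : (2 : ℝ) ≤ n := by exact_mod_cast hn
      linarith)
    rw [Real.norm_of_nonneg (by positivity), Real.norm_of_nonneg (by positivity)]
    rw [Real.logb] at h
    calc (U2all n : ℝ) ≤ 195 * (n * (Real.log n / Real.log 2)) := h
      _ = 195 / Real.log 2 * (n * Real.log n) := by ring
  · refine IsBigO.of_bound (2 * Real.log 2) ?_
    filter_upwards [Filter.eventually_ge_atTop 2] with n hn
    have h := (h1 n hn).2.1
    have hlog : 0 ≤ Real.log n := Real.log_nonneg (by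
      have : (2 : ℝ) ≤ n := by exact_mod_cast hn
      linarith)
    rw [Real.norm_of_nonneg (by positivity), Real.norm_of_nonneg (by positivity)]
    rw [Real.logb] at h
    calc (n : ℝ) * Real.log n
        = 2 * Real.log 2 * (1 / 2 * (n * (Real.log n / Real.log 2))) := by field_simp
      _ ≤ 2 * Real.log 2 * U2all n := mul_le_mul_of_nonneg_left h (by positivity)

end Pool.Agent.Results.MP_2f8515_co.PairShufflesThetaNLogN
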